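import Mathlib

set_option autoImplicit false
open Finset

namespace Pool.Agent.Results.MP_642bd7_co.SevenDirections

/-- The sixth root of unity. -/
noncomputable def om : ℂ := ⟨1 / 2, Real.sqrt 3 / 2⟩

/-- The rotation of the spindle, cosine `5/6`. -/
noncomputable def et : ℂ := ⟨5 / 6, Real.sqrt 11 / 6⟩

lemma norm_om : ‖om‖ = 1 := by
  rw [Complex.norm_def, Complex.normSq_apply, Real.sqrt_eq_one]
  have h := Real.mul_self_sqrt (show (0 : ℝ) ≤ 3 by norm_num)
  simp only [om]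
  linear_combination h / 4

lemma norm_om_sub : ‖om - 1‖ = 1 := by
  rw [Complex.norm_def, Complex.normSq_apply, Real.sqrt_eq_one]
  have h := Real.mul_self_sqrt (show (0 : ℝ) ≤ 3 by norm_num)
  simp only [om, Complex.sub_re, Complex.sub_im, Complex.one_re, Complex.one_im]
  linear_combination h / 4

lemma norm_et : ‖et‖ = 1 := by
  rw [Complex.norm_def, Complex.normSq_apply, Real.sqrt_eq_one]
  have h := Real.mul_self_sqrt (show (0 : ℝ) ≤ 11 by norm_num)
  simp only [et]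
  linear_combination h / 36

lemma norm_one_add_om : ‖1 + om‖ = Real.sqrt 3 := by
  rw [Complex.norm_def, Complex.normSq_apply]
  congr 1
  have h := Real.mul_self_sqrt (show (0 : ℝ) ≤ 3 by norm_num)
  simp only [om, Complex.add_re, Complex.add_im, Complex.one_re, Complex.one_im]
  linear_combination h / 4

lemma norm_et_sub : ‖et - 1‖ = 1 / Real.sqrt 3 := by
  rw [Complex.norm_def, Complex.normSq_apply]
  have h := Real.mul_self_sqrt (show (0 : ℝ) ≤ 11 by norm_num)
  have h1 : (et - 1).re * (et - 1).re + (et - 1).im * (et - 1).im = 1 / 3 := by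
    simp only [et, Complex.sub_re, Complex.sub_im, Complex.one_re, Complex.one_im]
    linear_combination h / 36
  rw [h1, Real.sqrt_div (by norm_num), Real.sqrt_one]

lemma norm_tip : ‖(1 + om) * (et - 1)‖ = 1 := by
  rw [norm_mul, norm_one_add_om, norm_et_sub, mul_one_div, div_self]
  have : 0 < Real.sqrt 3 := Real.sqrt_pos.2 (by norm_num)
  exact this.ne'

/-- The seven points of the spindle. -/
noncomputable def pt : Fin 7 → ℂ :=
  ![0, 1, om, 1 + om, et, et * om, et * (1 + om)]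

/-- The seven directions. -/
noncomputable def dir : Fin 7 → ℂ :=
  ![1, om, om - 1, et, et * om, et * (om - 1), (1 + om) * (et - 1)]

lemma norm_dir (i : Fin 7) : ‖dir i‖ = 1 := by
  fin_cases i <;> simp [dir, norm_om, norm_om_sub, norm_et]
  · rw [norm_one_add_om, norm_et_sub, mul_one_div, div_self]
    have : 0 < Real.sqrt 3 := Real.sqrt_pos.2 (by norm_num)
    exact this.ne'

lemma norm_pt (i : Fin 7) : ‖pt i‖ ≤ Real.sqrt 3 := by
  have h1 : (1 : ℝ) ≤ Real.sqrt 3 := by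
    rw [Real.one_le_sqrt]; norm_num
  have h0 : (0 : ℝ) ≤ Real.sqrt 3 := Real.sqrt_nonneg _
  fin_cases i <;> simp [pt, norm_om, norm_et, norm_one_add_om, h0, h1]

/-- An independent set of the spindle has at most two points. -/
lemma indep : ∀ b : Fin 7 → Bool, (b 0 && b 1 || b 0 && b 2 || b 1 && b 2 || b 1 && b 3 ||
    b 2 && b 3 || b 0 && b 4 || b 0 && b 5 || b 4 && b 5 || b 4 && b 6 || b 5 && b 6 ||
    b 3 && b 6) = false →
    ∑ p, (if b p = true then 1 else 0) ≤ 2 := by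
  intro b
  rw [Fin.sum_univ_seven]
  generalize b 0 = b0
  generalize b 1 = b1
  generalize b 2 = b2
  generalize b 3 = b3
  generalize b 4 = b4
  generalize b 5 = b5
  generalize b 6 = b6
  revert b0 b1 b2 b3 b4 b5 b6
  decide

open Classical in
lemma count_le (S : Set ℂ) (w : ℂ) (h : ∀ v, v ∈ Set.range dir → ∀ x ∈ S, x + w * v ∉ S) (z : ℂ) :
    ∑ p, (if z + w * pt p ∈ S then 1 else 0) ≤ 2 := by
  have key : ∀ a b j, pt b = pt a + dir j →
      (decide (z + w * pt a ∈ S) && decide (z + w * pt b ∈ S)) = false := by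
    intro a b j hab
    rw [Bool.and_eq_false_iff]
    by_cases h1 : z + w * pt a ∈ S
    · right
      rw [decide_eq_false_iff_not]
      have h2 := h (dir j) ⟨j, rfl⟩ _ h1
      have : z + w * pt a + w * dir j = z + w * pt b := by rw [hab]; ring
      rw [this] at h2
      exact h2
    · left
      rw [decide_eq_false_iff_not]
      exact h1
  have := indep (fun p => decide (z + w * pt p ∈ S))
  simp only [decide_eq_true_eq] at this
  refine this ?_
  rw [key 0 1 0 (by simp [pt, dir]), key 0 2 1 (by simp [pt, dir]), key 1 2 2 (by simp [pt, dir]),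
    key 1 3 1 (by simp [pt, dir]), key 2 3 0 (by simp [pt, dir]; ring), key 0 4 3 (by simp [pt, dir]),
    key 0 5 4 (by simp [pt, dir]), key 4 5 5 (by simp [pt, dir]; ring),
    key 4 6 4 (by simp [pt, dir]; ring), key 5 6 3 (by simp [pt, dir]; ring),
    key 3 6 6 (by simp [pt, dir]; ring)]
  rfl

/-- If three complex numbers have `3 √3 ‖w i‖ ≤ R` then all spindle sums have norm at most `R`. -/
lemma norm_sum_le (w : Fin 3 → ℂ) (R : ENNReal)
    (hw : ∀ i, ENNReal.ofReal (3 * Real.sqrt 3 * ‖w i‖) ≤ R) (p q r : Fin 7) :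
    ENNReal.ofReal ‖w 0 * pt p + w 1 * pt q + w 2 * pt r‖ ≤ R := by
  have h0 : (0 : ℝ) ≤ Real.sqrt 3 := Real.sqrt_nonneg _
  have h1 : ‖w 0 * pt p + w 1 * pt q + w 2 * pt r‖ ≤
      ‖w 0‖ * Real.sqrt 3 + ‖w 1‖ * Real.sqrt 3 + ‖w 2‖ * Real.sqrt 3 := by
    refine (norm_add_le _ _).trans (add_le_add ((norm_add_le _ _).trans (add_le_add ?_ ?_)) ?_) <;>
      rw [norm_mul] <;> exact mul_le_mul_of_nonneg_left (norm_pt _) (norm_nonneg _)
  have h2 : ∃ i, ‖w 0‖ * Real.sqrt 3 + ‖w 1‖ * Real.sqrt 3 + ‖w 2‖ * Real.sqrt 3 ≤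
      3 * Real.sqrt 3 * ‖w i‖ := by
    rcases le_total ‖w 0‖ ‖w 1‖ with h01 | h01 <;> rcases le_total ‖w 1‖ ‖w 2‖ with h12 | h12 <;>
      rcases le_total ‖w 0‖ ‖w 2‖ with h02 | h02
    · exact ⟨2, by nlinarith⟩
    · exact ⟨2, by nlinarith⟩
    · exact ⟨1, by nlinarith⟩
    · exact ⟨1, by nlinarith⟩
    · exact ⟨2, by nlinarith⟩
    · exact ⟨0, by nlinarith⟩
    · exact ⟨0, by nlinarith⟩
    · exact ⟨0, by nlinarith⟩
  obtain ⟨i, hi⟩ := h2
  exact (ENNReal.ofReal_le_ofReal (h1.trans hi)).trans (hw i)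

open Classical in
/-- The counting argument. -/
theorem counting (A : Fin 3 → Set ℂ) (F : Finset ℂ) (R : ENNReal)
    (hF : ∀ z : ℂ, ENNReal.ofReal ‖z‖ ≤ R →
      7 * (F.filter (fun f => z + f ∉ ⋃ i, A i)).card < F.card)
    (w : Fin 3 → ℂ) (hw : ∀ i, ENNReal.ofReal (3 * Real.sqrt 3 * ‖w i‖) ≤ R) :
    ∃ i, ∃ v, v ∈ Set.range dir ∧ ∃ x ∈ A i, x + w i * v ∈ A i := by
  by_contra hcon
  push Not at hcon
  set c : Fin 3 → ℂ → ℕ := fun i z => if z ∈ A i then 1 else 0 with hc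
  have hcount : ∀ i z, ∑ p, c i (z + w i * pt p) ≤ 2 := fun i z =>
    count_le (A i) (w i) (fun v hv x hx => hcon i v hv x hx) z
  set Z : Fin 7 → Fin 7 → Fin 7 → ℂ := fun p q r => w 0 * pt p + w 1 * pt q + w 2 * pt r with hZ
  -- each class has few points
  have h0 : ∑ p, ∑ q, ∑ r, ∑ f ∈ F, c 0 (Z p q r + f) ≤ 98 * F.card := by
    have e : ∑ p, ∑ q, ∑ r, ∑ f ∈ F, c 0 (Z p q r + f) =
        ∑ q : Fin 7, ∑ r : Fin 7, ∑ f ∈ F, ∑ p, c 0 ((w 1 * pt q + w 2 * pt r + f) + w 0 * pt p) := by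
      rw [Finset.sum_comm]
      refine Finset.sum_congr rfl fun q _ => ?_
      rw [Finset.sum_comm]
      refine Finset.sum_congr rfl fun r _ => ?_
      rw [Finset.sum_comm]
      refine Finset.sum_congr rfl fun f _ => Finset.sum_congr rfl fun p _ => ?_
      congr 1
      simp only [hZ]
      ring
    rw [e]
    calc _ ≤ ∑ q : Fin 7, ∑ r : Fin 7, ∑ f ∈ F, 2 :=
          Finset.sum_le_sum fun q _ => Finset.sum_le_sum fun r _ => Finset.sum_le_sum fun f _ =>
            hcount 0 _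
      _ = 98 * F.card := by simp; ring
  have h1 : ∑ p, ∑ q, ∑ r, ∑ f ∈ F, c 1 (Z p q r + f) ≤ 98 * F.card := by
    have e : ∑ p, ∑ q, ∑ r, ∑ f ∈ F, c 1 (Z p q r + f) =
        ∑ p : Fin 7, ∑ r : Fin 7, ∑ f ∈ F, ∑ q, c 1 ((w 0 * pt p + w 2 * pt r + f) + w 1 * pt q) := by
      refine Finset.sum_congr rfl fun p _ => ?_
      rw [Finset.sum_comm]
      refine Finset.sum_congr rfl fun r _ => ?_
      rw [Finset.sum_comm]
      refine Finset.sum_congr rfl fun f _ => Finset.sum_congr rfl fun q _ => ?_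
      congr 1
      simp only [hZ]
      ring
    rw [e]
    calc _ ≤ ∑ p : Fin 7, ∑ r : Fin 7, ∑ f ∈ F, 2 :=
          Finset.sum_le_sum fun q _ => Finset.sum_le_sum fun r _ => Finset.sum_le_sum fun f _ =>
            hcount 1 _
      _ = 98 * F.card := by simp; ring
  have h2 : ∑ p, ∑ q, ∑ r, ∑ f ∈ F, c 2 (Z p q r + f) ≤ 98 * F.card := by
    have e : ∑ p, ∑ q, ∑ r, ∑ f ∈ F, c 2 (Z p q r + f) =
        ∑ p : Fin 7, ∑ q : Fin 7, ∑ f ∈ F, ∑ r, c 2 ((w 0 * pt p + w 1 * pt q + f) + w 2 * pt r) := by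
      refine Finset.sum_congr rfl fun p _ => Finset.sum_congr rfl fun q _ => ?_
      rw [Finset.sum_comm]
      refine Finset.sum_congr rfl fun f _ => Finset.sum_congr rfl fun r _ => ?_
      congr 1
      simp only [hZ]
      ring
    rw [e]
    calc _ ≤ ∑ p : Fin 7, ∑ q : Fin 7, ∑ f ∈ F, 2 :=
          Finset.sum_le_sum fun q _ => Finset.sum_le_sum fun r _ => Finset.sum_le_sum fun f _ =>
            hcount 2 _
      _ = 98 * F.card := by simp; ring
  -- every point is in a class or bad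
  have h3 : ∀ p q r, F.card ≤ ∑ f ∈ F, c 0 (Z p q r + f) + ∑ f ∈ F, c 1 (Z p q r + f) +
      ∑ f ∈ F, c 2 (Z p q r + f) + (F.filter (fun f => Z p q r + f ∉ ⋃ i, A i)).card := by
    intro p q r
    rw [Finset.card_filter, ← Finset.sum_add_distrib, ← Finset.sum_add_distrib,
      ← Finset.sum_add_distrib, Finset.card_eq_sum_ones]
    refine Finset.sum_le_sum fun f _ => ?_
    by_cases hb : Z p q r + f ∉ ⋃ i, A i
    · rw [if_pos hb]; omega
    · push Not at hb
      obtain ⟨i, hi⟩ := Set.mem_iUnion.1 hb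
      have hci : c i (Z p q r + f) = 1 := if_pos hi
      fin_cases i
      · simp only [Fin.zero_eta] at hci; omega
      · simp only [Fin.mk_one] at hci; omega
      · simp only [Fin.reduceFinMk] at hci; omega
  have h4 : ∀ p q r, 7 * F.card + 1 ≤ 7 * (∑ f ∈ F, c 0 (Z p q r + f) + ∑ f ∈ F, c 1 (Z p q r + f) +
      ∑ f ∈ F, c 2 (Z p q r + f)) + F.card := by
    intro p q r
    have e1 := h3 p q r
    have e2 := hF (Z p q r) (norm_sum_le w R hw p q r)
    omega
  have h5 : ∑ _p : Fin 7, ∑ _q : Fin 7, ∑ _r : Fin 7, (7 * F.card + 1) ≤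
      ∑ p, ∑ q, ∑ r, (7 * (∑ f ∈ F, c 0 (Z p q r + f) + ∑ f ∈ F, c 1 (Z p q r + f) +
      ∑ f ∈ F, c 2 (Z p q r + f)) + F.card) :=
    Finset.sum_le_sum fun p _ => Finset.sum_le_sum fun q _ => Finset.sum_le_sum fun r _ => h4 p q r
  simp only [Finset.sum_add_distrib, ← Finset.mul_sum, Finset.sum_const, Finset.card_univ,
    Fintype.card_fin, smul_eq_mul] at h5
  omega

/-- **Main theorem.** -/
theorem result :
    ∃ V : Finset ℂ, V.card ≤ 7 ∧ (∀ v ∈ V, ‖v‖ = 1) ∧
      ∀ (A : Fin 3 → Set ℂ) (F : Finset ℂ) (R : ENNReal),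
        (∀ z : ℂ, ENNReal.ofReal ‖z‖ ≤ R →
          7 * Set.ncard {f : ℂ | f ∈ F ∧ z + f ∉ ⋃ i, A i} < F.card) →
        ∃ i, ∀ w : ℂ, ENNReal.ofReal (3 * Real.sqrt 3 * ‖w‖) ≤ R →
          ∃ v ∈ V, ∃ x ∈ A i, x + w * v ∈ A i := by
  classical
  refine ⟨Finset.univ.image dir, ?_, ?_, ?_⟩
  · exact (Finset.card_image_le).trans (by simp)
  · intro v hv
    obtain ⟨i, -, rfl⟩ := Finset.mem_image.1 hv
    exact norm_dir i
  · intro A F R hF
    by_contra hcon
    push Not at hcon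
    choose w hw hno using hcon
    have hF' : ∀ z : ℂ, ENNReal.ofReal ‖z‖ ≤ R →
        7 * (F.filter (fun f => z + f ∉ ⋃ i, A i)).card < F.card := by
      intro z hz
      have h1 := hF z hz
      have h2 : {f : ℂ | f ∈ F ∧ z + f ∉ ⋃ i, A i} =
          ((F.filter (fun f => z + f ∉ ⋃ i, A i) : Finset ℂ) : Set ℂ) := by
        ext f; simp
      rwa [h2, Set.ncard_coe_finset] at h1
    obtain ⟨i, v, ⟨j, rfl⟩, x, hx, hx'⟩ := counting A F R hF' w hw
    exact hno i (dir j) (Finset.mem_image_of_mem _ (Finset.mem_univ j)) x hx hx'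

end Pool.Agent.Results.MP_642bd7_co.SevenDirections
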