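import Mathlib

set_option autoImplicit false

/-!
Three arbitrary norms on the plane and three arbitrary sets covering it: one of the sets realises
all distances of its norm.  A Moser spindle exists in every norm on the plane (the set of unit
triangles, with its convex fibres, is connected enough for the intermediate value theorem), and
one averages over the sum of three spindles.
-/

namespace Pool.Agent.Results.MP_642bd7_co.ThreeNorms

theorem to1 (N : Seminorm ℝ ℂ) (p q : ℂ) (h : N p = 1) (e : q = p) : N q = 1 := by rw [e, h]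

/-- Strict version of the triangle inequality on a segment. -/
theorem seg_lt (N : Seminorm ℝ ℂ) (p q r : ℂ) (l : ℝ) (h0 : 0 ≤ l) (h1 : l < 1)
    (hp : N p < 1) (hq : N q ≤ 1) (hr : r = (1 - l) • p + l • q) : N r < 1 := by
  have h2 : N r ≤ (1 - l) * N p + l * N q := by
    rw [hr]
    refine (map_add_le_add N _ _).trans ?_
    rw [map_smul_eq_mul, map_smul_eq_mul, Real.norm_of_nonneg h0,
      Real.norm_of_nonneg (by linarith : (0 : ℝ) ≤ 1 - l)]
  nlinarith [apply_nonneg N p, apply_nonneg N q]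

theorem seg_le (N : Seminorm ℝ ℂ) (p q r : ℂ) (l : ℝ) (h0 : 0 ≤ l) (h1 : l ≤ 1)
    (hp : N p ≤ 1) (hq : N q ≤ 1) (hr : r = (1 - l) • p + l • q) : N r ≤ 1 := by
  have h2 : N r ≤ (1 - l) * N p + l * N q := by
    rw [hr]
    refine (map_add_le_add N _ _).trans ?_
    rw [map_smul_eq_mul, map_smul_eq_mul, Real.norm_of_nonneg h0,
      Real.norm_of_nonneg (by linarith : (0 : ℝ) ≤ 1 - l)]
  nlinarith [apply_nonneg N p, apply_nonneg N q]

/-- The case of different heights, with a nonnegative shift. -/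
theorem key0 (N : Seminorm ℝ ℂ) (v m : ℂ) (a b : ℝ) (hv : N v = 1)
    (h1 : N (m + (1 / 2 : ℝ) • v) = 1) (h2 : N (m - (1 / 2 : ℝ) • v) = 1)
    (hb0 : 0 ≤ b) (hb1 : b < 1) (ha : 0 ≤ a)
    (h3 : N (b • m + (a + 1 / 2) • v) = 1) (h4 : N (b • m + (a - 1 / 2) • v) = 1) : False := by
  have hint : ∀ t : ℝ, |t| < 1 - b / 2 → N (b • m + t • v) < 1 := by
    intro t ht
    have hc : 0 < 1 - b / 2 := by linarith
    set τ : ℝ := t / (1 - b / 2) with hτ
    have hτ1 : |τ| < 1 := by
      rw [hτ, abs_div, abs_of_pos hc, div_lt_one hc]; exact ht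
    have htτ : t = b * τ / 2 + (1 - b) * τ := by
      have h12 : τ * (1 - b / 2) = t := div_mul_cancel₀ _ hc.ne'
      linarith
    have hm : N (m + (τ / 2) • v) ≤ 1 := by
      have h5 := abs_lt.1 hτ1
      refine seg_le N (m - (1 / 2 : ℝ) • v) (m + (1 / 2 : ℝ) • v) _ ((1 + τ) / 2)
        (by linarith [h5.1]) (by linarith [h5.2]) h2.le h1.le ?_
      module
    have h6 : b • m + t • v = b • (m + (τ / 2) • v) + ((1 - b) * τ) • v := by
      rw [htτ]; module
    rw [h6]
    refine (map_add_le_add N _ _).trans_lt ?_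
    rw [map_smul_eq_mul, map_smul_eq_mul, hv, Real.norm_of_nonneg hb0, Real.norm_eq_abs,
      abs_mul, abs_of_pos (by linarith : (0 : ℝ) < 1 - b)]
    nlinarith [abs_nonneg τ]
  have h7 : 1 - b / 2 ≤ |a - 1 / 2| := by
    by_contra hcon
    rw [not_le] at hcon
    have := hint (a - 1 / 2) hcon
    linarith
  have h8 : 1 - b / 2 ≤ a - 1 / 2 := by
    rcases le_or_gt 0 (a - 1 / 2) with h | h
    · rwa [abs_of_nonneg h] at h7
    · rw [abs_of_neg h] at h7
      linarith
  have h9 : N (b • m) < 1 := by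
    have := hint 0 (by rw [abs_zero]; linarith)
    simpa using this
  have h10 : 0 < a + 1 / 2 := by linarith
  have h11 : N (b • m + (a - 1 / 2) • v) < 1 := by
    refine seg_lt N (b • m) (b • m + (a + 1 / 2) • v) _ ((a - 1 / 2) / (a + 1 / 2))
      (div_nonneg (by linarith) h10.le) ((div_lt_one h10).2 (by linarith)) h9 h3.le ?_
    have h12 : (a - 1 / 2) / (a + 1 / 2) * (a + 1 / 2) = a - 1 / 2 :=
      div_mul_cancel₀ _ h10.ne'
    rw [smul_add, smul_smul _ (a + 1 / 2), h12]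
    module
  linarith

theorem key1 (N : Seminorm ℝ ℂ) (v m : ℂ) (a b : ℝ) (hv : N v = 1)
    (h1 : N (m + (1 / 2 : ℝ) • v) = 1) (h2 : N (m - (1 / 2 : ℝ) • v) = 1)
    (hb0 : 0 ≤ b) (hb1 : b < 1)
    (h3 : N (b • m + (a + 1 / 2) • v) = 1) (h4 : N (b • m + (a - 1 / 2) • v) = 1) : False := by
  rcases le_total 0 a with ha | ha
  · exact key0 N v m a b hv h1 h2 hb0 hb1 ha h3 h4
  · refine key0 N (-v) m (-a) b (by rw [map_neg_eq_map, hv]) ?_ ?_ hb0 hb1 (by linarith) ?_ ?_
    · exact to1 N _ _ h2 (by module)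
    · exact to1 N _ _ h1 (by module)
    · exact to1 N _ _ h4 (by module)
    · exact to1 N _ _ h3 (by module)

/-- The case of equal heights: the segment stays on the unit sphere. -/
theorem key2 (N : Seminorm ℝ ℂ) (v m : ℂ) (a r : ℝ) (ha : 0 < a)
    (h1 : N (m + (1 / 2 : ℝ) • v) = 1) (h2 : N (m - (1 / 2 : ℝ) • v) = 1)
    (h3 : N (m + (a + 1 / 2) • v) = 1) (hr0 : - (1 / 2) ≤ r) (hr1 : r ≤ a + 1 / 2) :
    N (m + r • v) = 1 := by
  have hle : N (m + r • v) ≤ 1 := by
    have hpos : 0 < a + 1 := by linarith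
    refine seg_le N (m - (1 / 2 : ℝ) • v) (m + (a + 1 / 2) • v) _ ((r + 1 / 2) / (a + 1))
      (div_nonneg (by linarith) hpos.le) ((div_le_one hpos).2 (by linarith)) h2.le h3.le ?_
    have h12 : (r + 1 / 2) / (a + 1) * (a + 1) = r + 1 / 2 := div_mul_cancel₀ _ hpos.ne'
    set q := (r + 1 / 2) / (a + 1) with hq
    have h13 : r = q * (a + 1) - 1 / 2 := by linarith
    rw [h13]; module
  rcases hle.lt_or_eq with hlt | heq
  · exfalso
    rcases le_total r (1 / 2) with hr | hr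
    · have hpos : 0 < a + 1 / 2 - r := by linarith
      have : N (m + (1 / 2 : ℝ) • v) < 1 := by
        refine seg_lt N (m + r • v) (m + (a + 1 / 2) • v) _ ((1 / 2 - r) / (a + 1 / 2 - r))
          (div_nonneg (by linarith) hpos.le) ((div_lt_one hpos).2 (by linarith)) hlt h3.le ?_
        have h12 : (1 / 2 - r) / (a + 1 / 2 - r) * (a + 1 / 2 - r) = 1 / 2 - r :=
          div_mul_cancel₀ _ hpos.ne'
        set q := (1 / 2 - r) / (a + 1 / 2 - r) with hq
        have h13 : (1 / 2 : ℝ) = (1 - q) * r + q * (a + 1 / 2) := by linarith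
        calc m + (1 / 2 : ℝ) • v = m + ((1 - q) * r + q * (a + 1 / 2)) • v := by rw [← h13]
          _ = _ := by module
      linarith
    · have hpos : 0 < r + 1 / 2 := by linarith
      have : N (m + (1 / 2 : ℝ) • v) < 1 := by
        refine seg_lt N (m + r • v) (m - (1 / 2 : ℝ) • v) _ ((r - 1 / 2) / (r + 1 / 2))
          (div_nonneg (by linarith) hpos.le) ((div_lt_one hpos).2 (by linarith)) hlt h2.le ?_
        have h12 : (r - 1 / 2) / (r + 1 / 2) * (r + 1 / 2) = r - 1 / 2 :=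
          div_mul_cancel₀ _ hpos.ne'
        set q := (r - 1 / 2) / (r + 1 / 2) with hq
        have h13 : (1 / 2 : ℝ) = (1 - q) * r + q * (-(1 / 2)) := by linarith
        calc m + (1 / 2 : ℝ) • v = m + ((1 - q) * r + q * (-(1 / 2))) • v := by rw [← h13]
          _ = _ := by module
      linarith
  · exact heq

/-- The midpoints of the unit triangles on one side of `v`. -/
def Fib (N : Seminorm ℝ ℂ) (v : ℂ) : Set ℂ :=
  {m | N (m + (1 / 2 : ℝ) • v) = 1 ∧ N (m - (1 / 2 : ℝ) • v) = 1 ∧ 0 ≤ v.re * m.im - v.im * m.re}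

theorem fib_pos (N : Seminorm ℝ ℂ) (v m : ℂ) (hv : N v = 1) (hm : m ∈ Fib N v) :
    0 < v.re * m.im - v.im * m.re := by
  obtain ⟨h1, h2, h3⟩ := hm
  rcases h3.lt_or_eq with h | h
  · exact h
  · exfalso
    have hv0 : v ≠ 0 := by
      rintro rfl
      rw [map_zero] at hv
      exact zero_ne_one hv
    have hex : ∃ t : ℝ, m = t • v := by
      have hn : 0 < v.re ^ 2 + v.im ^ 2 := by
        rcases eq_or_ne v.re 0 with hre | hre
        · have him : v.im ≠ 0 := by
            intro him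
            exact hv0 (Complex.ext hre him)
          positivity
        · positivity
      refine ⟨(v.re * m.re + v.im * m.im) / (v.re ^ 2 + v.im ^ 2), Complex.ext ?_ ?_⟩
      · rw [Complex.real_smul, Complex.re_ofReal_mul]
        field_simp
        linear_combination (v.im) * h
      · rw [Complex.real_smul, Complex.im_ofReal_mul]
        field_simp
        linear_combination (-v.re) * h
    obtain ⟨t, rfl⟩ := hex
    rw [← add_smul, map_smul_eq_mul, hv, mul_one, Real.norm_eq_abs] at h1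
    rw [← sub_smul, map_smul_eq_mul, hv, mul_one, Real.norm_eq_abs] at h2
    rcases abs_eq (zero_le_one) |>.1 h1 with h | h <;>
      rcases abs_eq (zero_le_one) |>.1 h2 with h' | h' <;> linarith

theorem fib_aux (N : Seminorm ℝ ℂ) (v m m' : ℂ) (hv : N v = 1) (hm : m ∈ Fib N v)
    (hm' : m' ∈ Fib N v)
    (hle : v.re * m.im - v.im * m.re ≤ v.re * m'.im - v.im * m'.re) :
    ∃ a : ℝ, m = m' + a • v := by
  have hp := fib_pos N v m hv hm
  have hp' := fib_pos N v m' hv hm'
  set D := v.re * m.im - v.im * m.re with hD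
  set D' := v.re * m'.im - v.im * m'.re with hD'
  set b := D / D' with hb
  have hb0 : 0 ≤ b := div_nonneg hp.le hp'.le
  have hb1 : b ≤ 1 := (div_le_one hp').2 hle
  have hex : ∃ a : ℝ, m = b • m' + a • v := by
    refine ⟨(m.re * m'.im - m.im * m'.re) / D', Complex.ext ?_ ?_⟩
    · rw [Complex.add_re, Complex.real_smul, Complex.real_smul, Complex.re_ofReal_mul,
        Complex.re_ofReal_mul, hb]
      field_simp
      rw [hD, hD']; ring
    · rw [Complex.add_im, Complex.real_smul, Complex.real_smul, Complex.im_ofReal_mul,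
        Complex.im_ofReal_mul, hb]
      field_simp
      rw [hD, hD']; ring
  obtain ⟨a, ha⟩ := hex
  rcases hb1.lt_or_eq with hlt | heq
  · exfalso
    refine key1 N v m' a b hv hm'.1 hm'.2.1 hb0 hlt ?_ ?_
    · exact to1 N _ _ hm.1 (by rw [ha]; module)
    · exact to1 N _ _ hm.2.1 (by rw [ha]; module)
  · exact ⟨a, by rw [ha, heq, one_smul]⟩

/-- The fibre is convex. -/
theorem fib_seg (N : Seminorm ℝ ℂ) (v m m' : ℂ) (hv : N v = 1) (hm : m ∈ Fib N v)
    (hm' : m' ∈ Fib N v) (s : ℝ) (hs0 : 0 ≤ s) (hs1 : s ≤ 1) :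
    (1 - s) • m + s • m' ∈ Fib N v := by
  obtain ⟨a, ha⟩ : ∃ a : ℝ, m = m' + a • v := by
    rcases le_total (v.re * m.im - v.im * m.re) (v.re * m'.im - v.im * m'.re) with h | h
    · exact fib_aux N v m m' hv hm hm' h
    · obtain ⟨a, ha⟩ := fib_aux N v m' m hv hm' hm h
      exact ⟨-a, by rw [ha]; module⟩
  have hgen : ∀ (a : ℝ) (p : ℂ), 0 ≤ a → N (p + (1 / 2 : ℝ) • v) = 1 →
      N (p - (1 / 2 : ℝ) • v) = 1 → N (p + (a + 1 / 2) • v) = 1 → ∀ r : ℝ, 0 ≤ r → r ≤ a →
      N ((p + r • v) + (1 / 2 : ℝ) • v) = 1 ∧ N ((p + r • v) - (1 / 2 : ℝ) • v) = 1 := by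
    intro a p ha h1 h2 h3 r hr0 hr1
    rcases ha.lt_or_eq with hpos | h0
    · have e1 := key2 N v p a (r + 1 / 2) hpos h1 h2 h3 (by linarith) (by linarith)
      have e2 := key2 N v p a (r - 1 / 2) hpos h1 h2 h3 (by linarith) (by linarith)
      refine ⟨?_, ?_⟩
      · exact to1 N _ _ e1 (by module)
      · exact to1 N _ _ e2 (by module)
    · have hr : r = 0 := by linarith
      rw [hr, zero_smul, add_zero]
      exact ⟨h1, h2⟩
  have hfin : N (((1 - s) • m + s • m') + (1 / 2 : ℝ) • v) = 1 ∧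
      N (((1 - s) • m + s • m') - (1 / 2 : ℝ) • v) = 1 := by
    rcases le_total 0 a with h0 | h0
    · have := hgen a m' h0 hm'.1 hm'.2.1 (to1 N _ _ hm.1 (by rw [ha]; module)) ((1 - s) * a)
        (mul_nonneg (by linarith) h0) (by nlinarith)
      have e : (1 - s) • m + s • m' = m' + ((1 - s) * a) • v := by rw [ha]; module
      rw [e]; exact this
    · have := hgen (-a) m (by linarith) hm.1 hm.2.1
        (to1 N _ _ hm'.1 (by rw [ha]; module)) (s * (-a))
        (mul_nonneg hs0 (by linarith)) (by nlinarith)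
      have e : (1 - s) • m + s • m' = m + (s * (-a)) • v := by rw [ha]; module
      rw [e]; exact this
  refine ⟨hfin.1, hfin.2, ?_⟩
  have e3 : v.re * ((1 - s) • m + s • m').im - v.im * ((1 - s) • m + s • m').re
      = (1 - s) * (v.re * m.im - v.im * m.re) + s * (v.re * m'.im - v.im * m'.re) := by
    rw [Complex.add_im, Complex.add_re]
    simp only [Complex.real_smul, Complex.im_ofReal_mul, Complex.re_ofReal_mul]
    ring
  rw [e3]
  have := hm.2.2
  have := hm'.2.2
  have h1s : 0 ≤ 1 - s := by linarith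
  positivity


theorem cont (N : Seminorm ℝ ℂ) : Continuous N := by
  have hq : Continuous fun z : ℂ => (N 1 + N Complex.I) * ‖z‖ := by fun_prop
  rw [continuous_iff_continuousAt]
  intro z
  rw [Metric.continuousAt_iff]
  intro ε hε
  have hC : 0 ≤ N 1 + N Complex.I := add_nonneg (apply_nonneg N _) (apply_nonneg N _)
  refine ⟨ε / (N 1 + N Complex.I + 1), by positivity, ?_⟩
  intro w hw
  have hle : ∀ u : ℂ, N u ≤ (N 1 + N Complex.I) * ‖u‖ := by
    intro u
    have e : u = u.re • (1 : ℂ) + u.im • Complex.I := by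
      apply Complex.ext <;> simp
    calc N u = N (u.re • (1 : ℂ) + u.im • Complex.I) := by rw [← e]
      _ ≤ N (u.re • (1 : ℂ)) + N (u.im • Complex.I) := map_add_le_add N _ _
      _ = |u.re| * N 1 + |u.im| * N Complex.I := by
          rw [map_smul_eq_mul, map_smul_eq_mul, Real.norm_eq_abs, Real.norm_eq_abs]
      _ ≤ ‖u‖ * N 1 + ‖u‖ * N Complex.I :=
          add_le_add (mul_le_mul_of_nonneg_right (Complex.abs_re_le_norm u) (apply_nonneg N _))
            (mul_le_mul_of_nonneg_right (Complex.abs_im_le_norm u) (apply_nonneg N _))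
      _ = _ := by ring
  rw [dist_eq_norm] at hw
  rw [Real.dist_eq]
  have h1 : |N w - N z| ≤ N (w - z) := by
    rw [abs_le]
    constructor
    · have := map_sub_rev N w z
      have h2 : N z ≤ N (z - w) + N w := by
        have := map_add_le_add N (z - w) w
        rwa [sub_add_cancel] at this
      linarith
    · have h2 : N w ≤ N (w - z) + N z := by
        have := map_add_le_add N (w - z) z
        rwa [sub_add_cancel] at this
      linarith
  calc |N w - N z| ≤ N (w - z) := h1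
    _ ≤ (N 1 + N Complex.I) * ‖w - z‖ := hle _
    _ ≤ (N 1 + N Complex.I + 1) * ‖w - z‖ := by nlinarith [norm_nonneg (w - z)]
    _ < ε := by
      rw [lt_div_iff₀ (by positivity)] at hw
      linarith

/-- The unit ball of a norm on the plane is compact. -/
theorem ball_compact (N : Seminorm ℝ ℂ) (hN : ∀ x, N x = 0 → x = 0) :
    IsCompact {z : ℂ | N z ≤ 1} := by
  obtain ⟨w, hw, hmin⟩ := (isCompact_sphere (0 : ℂ) 1).exists_isMinOn
    ⟨1, by simp⟩ (cont N).continuousOn
  have hw1 : ‖w‖ = 1 := by simpa using hw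
  have hpos : 0 < N w := by
    rcases (apply_nonneg N w).lt_or_eq with h | h
    · exact h
    · have := hN w h.symm
      rw [this, norm_zero] at hw1
      exact absurd hw1 zero_ne_one
  refine Metric.isCompact_of_isClosed_isBounded (isClosed_le (cont N) continuous_const) ?_
  rw [isBounded_iff_forall_norm_le]
  refine ⟨1 / N w, ?_⟩
  intro z hz
  rcases eq_or_ne z 0 with rfl | hz0
  · rw [norm_zero]; positivity
  · have hzn : 0 < ‖z‖ := norm_pos_iff.2 hz0
    have hmem : (‖z‖⁻¹ : ℝ) • z ∈ Metric.sphere (0 : ℂ) 1 := by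
      rw [mem_sphere_zero_iff_norm, norm_smul, norm_inv, norm_norm, inv_mul_cancel₀ hzn.ne']
    have h1 : N w ≤ N ((‖z‖⁻¹ : ℝ) • z) := hmin hmem
    rw [map_smul_eq_mul, norm_inv, norm_norm] at h1
    have h2 : N z ≤ 1 := hz
    rw [le_div_iff₀ hpos]
    have h3 : ‖z‖ * N w ≤ ‖z‖ * (‖z‖⁻¹ * N z) := mul_le_mul_of_nonneg_left h1 hzn.le
    rw [← mul_assoc, mul_inv_cancel₀ hzn.ne', one_mul] at h3
    linarith

/-- A path of unit vectors from `v` to `-v`. -/
noncomputable def path (N : Seminorm ℝ ℂ) (v : ℂ) (t : ℝ) : ℂ :=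
  (N (Complex.exp (((Real.pi * t : ℝ) : ℂ) * Complex.I) * v))⁻¹ •
    (Complex.exp (((Real.pi * t : ℝ) : ℂ) * Complex.I) * v)

theorem path_pos (N : Seminorm ℝ ℂ) (hN : ∀ x, N x = 0 → x = 0) (v : ℂ) (hv : N v = 1) (t : ℝ) :
    0 < N (Complex.exp (((Real.pi * t : ℝ) : ℂ) * Complex.I) * v) := by
  rcases (apply_nonneg N (Complex.exp (((Real.pi * t : ℝ) : ℂ) * Complex.I) * v)).lt_or_eq
    with h | h
  · exact h
  · have h1 := hN _ h.symm
    rcases mul_eq_zero.1 h1 with h2 | h2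
    · exact absurd h2 (Complex.exp_ne_zero _)
    · rw [h2, map_zero] at hv
      exact absurd hv zero_ne_one

theorem path_unit (N : Seminorm ℝ ℂ) (hN : ∀ x, N x = 0 → x = 0) (v : ℂ) (hv : N v = 1) (t : ℝ) :
    N (path N v t) = 1 := by
  have h := path_pos N hN v hv t
  rw [path, map_smul_eq_mul, norm_inv, Real.norm_of_nonneg h.le, inv_mul_cancel₀ h.ne']

theorem path_zero (N : Seminorm ℝ ℂ) (v : ℂ) (hv : N v = 1) : path N v 0 = v := by
  rw [path]
  simp [hv]

theorem path_one (N : Seminorm ℝ ℂ) (v : ℂ) (hv : N v = 1) : path N v 1 = -v := by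
  rw [path]
  simp [hv]

theorem path_cont (N : Seminorm ℝ ℂ) (hN : ∀ x, N x = 0 → x = 0) (v : ℂ) (hv : N v = 1) :
    Continuous (path N v) := by
  have hc := cont N
  have h1 : Continuous fun t : ℝ => Complex.exp (((Real.pi * t : ℝ) : ℂ) * Complex.I) * v := by
    fun_prop
  have h2 : Continuous fun t : ℝ =>
      (N (Complex.exp (((Real.pi * t : ℝ) : ℂ) * Complex.I) * v))⁻¹ :=
    (hc.comp h1).inv₀ fun t => (path_pos N hN v hv t).ne'
  exact h2.smul h1

/-- Every unit vector is a side of a unit triangle. -/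
theorem fib_nonempty (N : Seminorm ℝ ℂ) (hN : ∀ x, N x = 0 → x = 0) (v : ℂ) (hv : N v = 1) :
    (Fib N v).Nonempty := by
  have hc : Continuous fun t => N (path N v t - v) :=
    (cont N).comp ((path_cont N hN v hv).sub continuous_const)
  have h0 : N (path N v 0 - v) = 0 := by rw [path_zero N v hv, sub_self, map_zero]
  have h1 : N (path N v 1 - v) = 2 := by
    rw [path_one N v hv]
    have : -v - v = (-2 : ℝ) • v := by module
    rw [this, map_smul_eq_mul, hv]
    norm_num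
  obtain ⟨t, -, ht⟩ := intermediate_value_Icc (zero_le_one (α := ℝ)) hc.continuousOn
    (show (1 : ℝ) ∈ Set.Icc _ _ by rw [h0, h1]; constructor <;> norm_num)
  set p := path N v t with hp
  have hp1 : N p = 1 := path_unit N hN v hv t
  have ht' : N (p - v) = 1 := ht
  rcases le_total 0 (v.re * (p - (1 / 2 : ℝ) • v).im - v.im * (p - (1 / 2 : ℝ) • v).re) with h | h
  · exact ⟨p - (1 / 2 : ℝ) • v, to1 N _ _ hp1 (by module), to1 N _ _ ht' (by module), h⟩
  · refine ⟨-(p - (1 / 2 : ℝ) • v), ?_, ?_, ?_⟩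
    · have e : -(p - (1 / 2 : ℝ) • v) + (1 / 2 : ℝ) • v = -(p - v) := by module
      rw [e, map_neg_eq_map]; exact ht'
    · have e : -(p - (1 / 2 : ℝ) • v) - (1 / 2 : ℝ) • v = -p := by module
      rw [e, map_neg_eq_map]; exact hp1
    · rw [Complex.neg_im, Complex.neg_re]
      linarith

/-- In every norm on the plane there are two unit rhombi whose diagonals differ by a unit
vector. -/
theorem exists_rhombi (N : Seminorm ℝ ℂ) (hN : ∀ x, N x = 0 → x = 0) :
    ∃ v m w n : ℂ, N v = 1 ∧ m ∈ Fib N v ∧ N w = 1 ∧ n ∈ Fib N w ∧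
      N ((2 : ℝ) • n - (2 : ℝ) • m) = 1 := by
  have hN1 : 0 < N 1 := by
    rcases (apply_nonneg N (1 : ℂ)).lt_or_eq with h | h
    · exact h
    · exact absurd (hN 1 h.symm) one_ne_zero
  obtain ⟨v, hv⟩ : ∃ v, N v = 1 := ⟨(N 1)⁻¹ • (1 : ℂ), by
    rw [map_smul_eq_mul, norm_inv, Real.norm_of_nonneg hN1.le, inv_mul_cancel₀ hN1.ne']⟩
  obtain ⟨m, hm⟩ := fib_nonempty N hN v hv
  have hcN := cont N
  have hcp := path_cont N hN v hv
  -- the total space
  let K : Set (ℝ × ℂ) := {x | x.1 ∈ Set.Icc (0 : ℝ) 1 ∧ x.2 ∈ Fib N (path N v x.1)}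
  have hKc : IsCompact K := by
    have hprod : IsCompact ((Set.Icc (0 : ℝ) 1) ×ˢ {z : ℂ | N z ≤ 1}) :=
      isCompact_Icc.prod (ball_compact N hN)
    refine hprod.of_isClosed_subset ?_ ?_
    · have c1 : IsClosed {x : ℝ × ℂ | x.1 ∈ Set.Icc (0 : ℝ) 1} :=
        isClosed_Icc.preimage continuous_fst
      have p1 : Continuous fun x : ℝ × ℂ => path N v x.1 := hcp.comp continuous_fst
      have q2 : Continuous fun x : ℝ × ℂ => x.2 + (1 / 2 : ℝ) • path N v x.1 := by fun_prop
      have q3 : Continuous fun x : ℝ × ℂ => x.2 - (1 / 2 : ℝ) • path N v x.1 := by fun_prop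
      have c2 : IsClosed {x : ℝ × ℂ | N (x.2 + (1 / 2 : ℝ) • path N v x.1) = 1} :=
        isClosed_eq (hcN.comp q2) continuous_const
      have c3 : IsClosed {x : ℝ × ℂ | N (x.2 - (1 / 2 : ℝ) • path N v x.1) = 1} :=
        isClosed_eq (hcN.comp q3) continuous_const
      have c4 : IsClosed {x : ℝ × ℂ | 0 ≤ (path N v x.1).re * x.2.im -
          (path N v x.1).im * x.2.re} := by
        refine isClosed_le continuous_const ?_
        exact ((Complex.continuous_re.comp p1).mul (Complex.continuous_im.comp continuous_snd)).sub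
          ((Complex.continuous_im.comp p1).mul (Complex.continuous_re.comp continuous_snd))
      exact c1.inter (c2.inter (c3.inter c4))
    · rintro ⟨t, z⟩ ⟨h1, h2, h3, -⟩
      refine ⟨h1, ?_⟩
      exact seg_le N _ _ z (1 / 2) (by norm_num) (by norm_num) h2.le h3.le (by module)
  have hg : Continuous fun x : ℝ × ℂ => N ((2 : ℝ) • x.2 - (2 : ℝ) • m) :=
    hcN.comp ((continuous_snd.const_smul (2 : ℝ)).sub continuous_const)
  have hS1 : IsClosed (Prod.fst '' (K ∩ {x | N ((2 : ℝ) • x.2 - (2 : ℝ) • m) ≤ 1})) :=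
    ((hKc.inter_right (isClosed_le hg continuous_const)).image continuous_fst).isClosed
  have hS2 : IsClosed (Prod.fst '' (K ∩ {x | 1 ≤ N ((2 : ℝ) • x.2 - (2 : ℝ) • m)})) :=
    ((hKc.inter_right (isClosed_le continuous_const hg)).image continuous_fst).isClosed
  have hcov : Set.Icc (0 : ℝ) 1 ⊆ Prod.fst '' (K ∩ {x | N ((2 : ℝ) • x.2 - (2 : ℝ) • m) ≤ 1}) ∪
      Prod.fst '' (K ∩ {x | 1 ≤ N ((2 : ℝ) • x.2 - (2 : ℝ) • m)}) := by
    intro t ht
    obtain ⟨z, hz⟩ := fib_nonempty N hN (path N v t) (path_unit N hN v hv t)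
    rcases le_total (N ((2 : ℝ) • z - (2 : ℝ) • m)) 1 with h | h
    · exact Or.inl ⟨(t, z), ⟨⟨ht, hz⟩, h⟩, rfl⟩
    · exact Or.inr ⟨(t, z), ⟨⟨ht, hz⟩, h⟩, rfl⟩
  have hmem0 : (Set.Icc (0 : ℝ) 1 ∩
      Prod.fst '' (K ∩ {x | N ((2 : ℝ) • x.2 - (2 : ℝ) • m) ≤ 1})).Nonempty := by
    refine ⟨0, by simp, (0, m), ⟨⟨by simp, ?_⟩, ?_⟩, rfl⟩
    · change m ∈ Fib N (path N v 0)
      rw [path_zero N v hv]; exact hm
    · change N ((2 : ℝ) • m - (2 : ℝ) • m) ≤ 1
      rw [sub_self, map_zero]; exact zero_le_one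
  have hmem1 : (Set.Icc (0 : ℝ) 1 ∩
      Prod.fst '' (K ∩ {x | 1 ≤ N ((2 : ℝ) • x.2 - (2 : ℝ) • m)})).Nonempty := by
    refine ⟨1, by simp, (1, -m), ⟨⟨by simp, ?_⟩, ?_⟩, rfl⟩
    · change -m ∈ Fib N (path N v 1)
      rw [path_one N v hv]
      obtain ⟨h1, h2, h3⟩ := hm
      refine ⟨?_, ?_, ?_⟩
      · have e : -m + (1 / 2 : ℝ) • (-v) = -(m + (1 / 2 : ℝ) • v) := by module
        rw [e, map_neg_eq_map]; exact h1
      · have e : -m - (1 / 2 : ℝ) • (-v) = -(m - (1 / 2 : ℝ) • v) := by module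
        rw [e, map_neg_eq_map]; exact h2
      · rw [Complex.neg_im, Complex.neg_re, Complex.neg_im, Complex.neg_re]
        linarith
    · change 1 ≤ N ((2 : ℝ) • (-m) - (2 : ℝ) • m)
      have e : (2 : ℝ) • (-m) - (2 : ℝ) • m = (-4 : ℝ) • m := by module
      rw [e, map_smul_eq_mul]
      have h1 := hm.1
      have h2 : N (m + (1 / 2 : ℝ) • v) ≤ N m + N ((1 / 2 : ℝ) • v) := map_add_le_add N _ _
      rw [map_smul_eq_mul N (1 / 2 : ℝ) v, hv, h1] at h2
      norm_num at h2 ⊢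
      linarith
  obtain ⟨t, ht, ⟨⟨t1, z1⟩, ⟨⟨-, hz1⟩, hle1⟩, rfl⟩, ⟨⟨t2, z2⟩, ⟨⟨-, hz2⟩, hle2⟩, h12⟩⟩ :=
    isPreconnected_closed_iff.1 isPreconnected_Icc _ _ hS1 hS2 hcov hmem0 hmem1
  have h12' : t2 = t1 := h12
  subst h12'
  have hz1' : z1 ∈ Fib N (path N v t2) := hz1
  have hz2' : z2 ∈ Fib N (path N v t2) := hz2
  have hle1' : N ((2 : ℝ) • z1 - (2 : ℝ) • m) ≤ 1 := hle1
  have hle2' : 1 ≤ N ((2 : ℝ) • z2 - (2 : ℝ) • m) := hle2
  have hcs : Continuous fun s : ℝ => N ((2 : ℝ) • ((1 - s) • z1 + s • z2) - (2 : ℝ) • m) := by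
    refine hcN.comp ?_
    fun_prop
  obtain ⟨s, hs, hs1⟩ := intermediate_value_Icc (zero_le_one (α := ℝ)) hcs.continuousOn
    (show (1 : ℝ) ∈ Set.Icc _ _ by
      constructor
      · have e : (1 - (0 : ℝ)) • z1 + (0 : ℝ) • z2 = z1 := by module
        rw [e]; exact hle1'
      · have e : (1 - (1 : ℝ)) • z1 + (1 : ℝ) • z2 = z2 := by module
        rw [e]; exact hle2')
  exact ⟨v, m, path N v t2, (1 - s) • z1 + s • z2, hv, hm, path_unit N hN v hv t2,
    fib_seg N _ z1 z2 (path_unit N hN v hv t2) hz1' hz2' s hs.1 hs.2, hs1⟩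


/-- Moser spindles exist in every norm on the plane. -/
theorem exists_spindle (N : Seminorm ℝ (EuclideanSpace ℝ (Fin 2))) (hN : ∀ x, N x = 0 → x = 0) :
    ∃ a b c e : EuclideanSpace ℝ (Fin 2), N a = 1 ∧ N b = 1 ∧ N (a - b) = 1 ∧ N c = 1 ∧ N e = 1 ∧
      N (c - e) = 1 ∧ N (a + b - (c + e)) = 1 := by
  let L : ℂ →ₗ[ℝ] EuclideanSpace ℝ (Fin 2) :=
    (Complex.orthonormalBasisOneI.repr.toLinearEquiv : ℂ ≃ₗ[ℝ] EuclideanSpace ℝ (Fin 2))
  have hL : ∀ z, L z = 0 → z = 0 := by
    intro z hz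
    exact (Complex.orthonormalBasisOneI.repr.toLinearEquiv.map_eq_zero_iff).1 hz
  obtain ⟨v, m, w, n, hv, hm, hw, hn, h⟩ := exists_rhombi (N.comp L) (by
    intro z hz
    exact hL z (hN _ hz))
  have key : ∀ z : ℂ, (N.comp L) z = 1 → ∀ y, y = L z → N y = 1 := by
    rintro z hz y rfl
    exact hz
  refine ⟨L (n + (1 / 2 : ℝ) • w), L (n - (1 / 2 : ℝ) • w), L (m + (1 / 2 : ℝ) • v),
    L (m - (1 / 2 : ℝ) • v), key _ hn.1 _ rfl, key _ hn.2.1 _ rfl, key _ hw _ ?_,
    key _ hm.1 _ rfl, key _ hm.2.1 _ rfl, key _ hv _ ?_, key _ h _ ?_⟩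
  · rw [← map_sub]; congr 1; module
  · rw [← map_sub]; congr 1; module
  · rw [← map_add, ← map_add, ← map_sub]; congr 1; module

/-- The edges of the Moser spindle. -/
def edges : List (Fin 7 × Fin 7) :=
  [(0, 1), (0, 2), (2, 1), (1, 3), (2, 3), (0, 4), (0, 5), (5, 4), (4, 6), (5, 6), (6, 3)]

/-- The independence number of the Moser spindle is two. -/
theorem spindle_indep : ∀ J : Finset (Fin 7), (∀ e ∈ edges, ¬ (e.1 ∈ J ∧ e.2 ∈ J)) → J.card ≤ 2 := by
  decide +kernel

/-- The seven labelled points of a spindle. -/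
def pts {E : Type} [AddCommGroup E] (a b c e : E) : Fin 7 → E := ![0, a, b, a + b, c, e, c + e]

/-- The seven difference vectors of a spindle. -/
def dirs {E : Type} [AddCommGroup E] (a b c e : E) : Fin 7 → E :=
  ![a, b, a - b, c, e, c - e, a + b - (c + e)]

theorem count_le_two {E G : Type} [AddCommGroup E] [AddCommGroup G] (a b c e : E) (T : E →+ G)
    (A : Set G) (hA : ∀ j, ∀ x ∈ A, x + T (dirs a b c e j) ∉ A) (x : G) [DecidablePred (· ∈ A)] :
    (Finset.univ.filter fun j : Fin 7 => x + T (pts a b c e j) ∈ A).card ≤ 2 := by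
  have gen : ∀ (i j k : Fin 7), pts a b c e j = pts a b c e i + dirs a b c e k →
      ¬ (i ∈ (Finset.univ.filter fun j : Fin 7 => x + T (pts a b c e j) ∈ A) ∧
        j ∈ (Finset.univ.filter fun j : Fin 7 => x + T (pts a b c e j) ∈ A)) := by
    rintro i j k h ⟨h1, h2⟩
    rw [Finset.mem_filter] at h1 h2
    have h3 := hA k _ h1.2
    rw [add_assoc, ← map_add, ← h] at h3
    exact h3 h2.2
  apply spindle_indep
  intro e he
  simp only [edges, List.mem_cons, List.not_mem_nil, or_false] at he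
  rcases he with rfl | rfl | rfl | rfl | rfl | rfl | rfl | rfl | rfl | rfl | rfl
  · exact gen 0 1 0 (by simp [pts, dirs])
  · exact gen 0 2 1 (by simp [pts, dirs])
  · exact gen 2 1 2 (by simp [pts, dirs])
  · exact gen 1 3 1 (by simp [pts, dirs])
  · exact gen 2 3 0 (by simp [pts, dirs, add_comm])
  · exact gen 0 4 3 (by simp [pts, dirs])
  · exact gen 0 5 4 (by simp [pts, dirs])
  · exact gen 5 4 5 (by simp [pts, dirs])
  · exact gen 4 6 4 (by simp [pts, dirs])
  · exact gen 5 6 3 (by simp [pts, dirs, add_comm])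
  · exact gen 6 3 6 (by simp [pts, dirs])

/-- Counting over the product of three spindles. -/
theorem count {G : Type} [AddCommGroup G] (P : Fin 3 → Fin 7 → G) (A : Fin 3 → Set G)
    [∀ i, DecidablePred (· ∈ A i)]
    (h : ∀ i y, (Finset.univ.filter fun j : Fin 7 => y + P i j ∈ A i).card ≤ 2) (x : G) :
    49 ≤ (Finset.univ.filter fun j : Fin 3 → Fin 7 => ∀ i, x + ∑ k, P k (j k) ∉ A i).card := by
  classical
  have hi : ∀ i : Fin 3, (Finset.univ.filter fun j : Fin 3 → Fin 7 =>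
      x + ∑ k, P k (j k) ∈ A i).card ≤ 98 := by
    intro i
    have hsum : (Finset.univ.filter fun j : Fin 3 → Fin 7 => x + ∑ k, P k (j k) ∈ A i).card
        = ∑ r : {k : Fin 3 // k ≠ i} → Fin 7, (Finset.univ.filter fun j : Fin 7 =>
            (x + ∑ k : {k : Fin 3 // k ≠ i}, P k (r k)) + P i j ∈ A i).card := by
      simp only [Finset.card_filter]
      rw [← Fintype.sum_equiv (Equiv.piSplitAt i (fun _ => Fin 7)).symm
        (fun q => if (x + ∑ k : {k : Fin 3 // k ≠ i}, P k (q.2 k)) + P i q.1 ∈ A i then 1 else 0)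
        _ ?_]
      · rw [Fintype.sum_prod_type, Finset.sum_comm]
      · rintro ⟨q, r⟩
        have e : ∑ k, P k ((Equiv.piSplitAt i (fun _ => Fin 7)).symm (q, r) k) =
            ∑ k : {k : Fin 3 // k ≠ i}, P k (r k) + P i q := by
          rw [← Fintype.sum_subtype_add_sum_subtype (fun k => k ≠ i)]
          congr 1
          · apply Finset.sum_congr rfl
            rintro ⟨k, hk⟩ -
            simp [Equiv.piSplitAt, hk]
          · rw [Fintype.sum_eq_single (⟨i, by simp⟩ : {k : Fin 3 // ¬ k ≠ i})]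
            · simp [Equiv.piSplitAt]
            · rintro ⟨k, hk⟩ hne
              exact absurd (Subtype.ext (not_not.1 hk)) hne
        simp only [e, add_assoc]
    rw [hsum]
    calc _ ≤ ∑ r : {k : Fin 3 // k ≠ i} → Fin 7, 2 := Finset.sum_le_sum fun r _ => h i _
      _ = 98 := by
        have hc : Fintype.card {k : Fin 3 // k ≠ i} = 2 := by
          rw [Fintype.card_subtype_compl, Fintype.card_subtype_eq]; rfl
        rw [Finset.sum_const, Finset.card_univ, Fintype.card_fun, hc, Fintype.card_fin]; rfl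
  have hcov : (Finset.univ : Finset (Fin 3 → Fin 7)) ⊆
      (Finset.univ.filter fun j : Fin 3 → Fin 7 => ∀ i, x + ∑ k, P k (j k) ∉ A i) ∪
      (Finset.univ.biUnion fun i : Fin 3 => Finset.univ.filter fun j : Fin 3 → Fin 7 =>
        x + ∑ k, P k (j k) ∈ A i) := by
    intro j _
    rw [Finset.mem_union, Finset.mem_biUnion, Finset.mem_filter]
    by_cases hj : ∀ i, x + ∑ k, P k (j k) ∉ A i
    · exact Or.inl ⟨Finset.mem_univ _, hj⟩
    · rw [not_forall] at hj
      obtain ⟨i, hi⟩ := hj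
      exact Or.inr ⟨i, Finset.mem_univ _, Finset.mem_filter.2 ⟨Finset.mem_univ _, not_not.1 hi⟩⟩
  have h1 := Finset.card_le_card hcov
  have h2 := (Finset.card_union_le (Finset.univ.filter fun j : Fin 3 → Fin 7 =>
      ∀ i, x + ∑ k, P k (j k) ∉ A i) (Finset.univ.biUnion fun i : Fin 3 =>
        Finset.univ.filter fun j : Fin 3 → Fin 7 => x + ∑ k, P k (j k) ∈ A i))
  have h3 := (Finset.card_biUnion_le (s := (Finset.univ : Finset (Fin 3)))
    (t := fun i : Fin 3 => Finset.univ.filter fun j : Fin 3 → Fin 7 =>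
        x + ∑ k, P k (j k) ∈ A i))
  have h4 : ∑ i : Fin 3, (Finset.univ.filter fun j : Fin 3 → Fin 7 =>
        x + ∑ k, P k (j k) ∈ A i).card ≤ ∑ i : Fin 3, 98 := Finset.sum_le_sum fun i _ => hi i
  rw [Finset.sum_const, Finset.card_univ, Fintype.card_fin] at h4
  rw [Finset.card_univ, Fintype.card_fun, Fintype.card_fin, Fintype.card_fin] at h1
  norm_num at h1 h4
  omega

/-- Three norms: see the header.  `V N` are the unit vectors of the spindle of `N` and `S N` its
points.  The last part is the finite form: of the 343 points at least 49 are uncovered. -/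
theorem result :
    ∃ (V : Seminorm ℝ (EuclideanSpace ℝ (Fin 2)) → Finset (EuclideanSpace ℝ (Fin 2)))
      (S : Seminorm ℝ (EuclideanSpace ℝ (Fin 2)) → Fin 7 → EuclideanSpace ℝ (Fin 2)),
      (∀ N : Seminorm ℝ (EuclideanSpace ℝ (Fin 2)), (∀ x, N x = 0 → x = 0) →
        (V N).card ≤ 7 ∧ (∀ v ∈ V N, N v = 1) ∧ ∀ j, N (S N j) ≤ 2) ∧
      ∀ N : Fin 3 → Seminorm ℝ (EuclideanSpace ℝ (Fin 2)), (∀ i x, N i x = 0 → x = 0) →
        ∀ A : Fin 3 → Set (EuclideanSpace ℝ (Fin 2)),
          ((∀ x, ∃ i, x ∈ A i) → ∃ i,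
            (∀ d : ℝ, 0 < d → ∃ x ∈ A i, ∃ y ∈ A i, N i (x - y) = d) ∧
            ∀ T : EuclideanSpace ℝ (Fin 2) →+ EuclideanSpace ℝ (Fin 2),
              ∃ v ∈ V (N i), ∃ x ∈ A i, x + T v ∈ A i) ∧
          ∀ T : Fin 3 → (EuclideanSpace ℝ (Fin 2) →+ EuclideanSpace ℝ (Fin 2)),
            (∀ i, ∀ v ∈ V (N i), ∀ x ∈ A i, x + T i v ∉ A i) →
            ∀ x, 49 ≤ Set.ncard {j : Fin 3 → Fin 7 | ∀ i, x + ∑ k, T k (S (N k) (j k)) ∉ A i} := by
  classical
  have hex : ∀ N : Seminorm ℝ (EuclideanSpace ℝ (Fin 2)), ∃ a b c e : EuclideanSpace ℝ (Fin 2),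
      (∀ x, N x = 0 → x = 0) → N a = 1 ∧ N b = 1 ∧ N (a - b) = 1 ∧ N c = 1 ∧ N e = 1 ∧
      N (c - e) = 1 ∧ N (a + b - (c + e)) = 1 := by
    intro N
    by_cases hN : ∀ x, N x = 0 → x = 0
    · obtain ⟨a, b, c, e, h⟩ := exists_spindle N hN
      exact ⟨a, b, c, e, fun _ => h⟩
    · exact ⟨0, 0, 0, 0, fun h => absurd h hN⟩
  choose a b c e h using hex
  refine ⟨fun N => Finset.univ.image (dirs (a N) (b N) (c N) (e N)),
    fun N => pts (a N) (b N) (c N) (e N), ?_, ?_⟩
  · intro N hN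
    obtain ⟨h1, h2, h3, h4, h5, h6, h7⟩ := h N hN
    refine ⟨?_, ?_, ?_⟩
    · exact Finset.card_image_le.trans (by simp)
    · intro v hv
      obtain ⟨j, -, rfl⟩ := Finset.mem_image.1 hv
      fin_cases j <;> simpa [dirs]
    · have hab := map_add_le_add N (a N) (b N)
      have hce := map_add_le_add N (c N) (e N)
      intro j
      fin_cases j <;> simp [pts] <;> linarith
  · intro N hN A
    have key : ∀ T : Fin 3 → (EuclideanSpace ℝ (Fin 2) →+ EuclideanSpace ℝ (Fin 2)),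
        (∀ i, ∀ v ∈ Finset.univ.image (dirs (a (N i)) (b (N i)) (c (N i)) (e (N i))),
          ∀ x ∈ A i, x + T i v ∉ A i) →
        ∀ x, 49 ≤ Set.ncard {j : Fin 3 → Fin 7 | ∀ i,
          x + ∑ k, T k (pts (a (N k)) (b (N k)) (c (N k)) (e (N k)) (j k)) ∉ A i} := by
      intro T hT x
      rw [Set.ncard_eq_toFinset_card']
      have := count (fun i j => T i (pts (a (N i)) (b (N i)) (c (N i)) (e (N i)) j)) A
        (fun i y => count_le_two _ _ _ _ (T i) (A i)
          (fun j z hz => hT i _ (Finset.mem_image_of_mem _ (Finset.mem_univ j)) z hz) y) x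
      convert this using 2
      ext j
      simp
    refine ⟨?_, key⟩
    intro hA
    have hgood : ∃ i, ∀ T : EuclideanSpace ℝ (Fin 2) →+ EuclideanSpace ℝ (Fin 2),
        ∃ v ∈ Finset.univ.image (dirs (a (N i)) (b (N i)) (c (N i)) (e (N i))),
          ∃ x ∈ A i, x + T v ∈ A i := by
      by_contra hcon
      rw [not_exists] at hcon
      have hcon' : ∀ i, ∃ T : EuclideanSpace ℝ (Fin 2) →+ EuclideanSpace ℝ (Fin 2),
          ∀ v ∈ Finset.univ.image (dirs (a (N i)) (b (N i)) (c (N i)) (e (N i))),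
          ∀ x ∈ A i, x + T v ∉ A i := by
        intro i
        obtain ⟨T, hT⟩ := not_forall.1 (hcon i)
        refine ⟨T, ?_⟩
        intro v hv x hx hx'
        exact hT ⟨v, hv, x, hx, hx'⟩
      choose T hT using hcon'
      have h49 := key T hT 0
      have hemp : {j : Fin 3 → Fin 7 | ∀ i,
          (0 : EuclideanSpace ℝ (Fin 2)) +
            ∑ k, T k (pts (a (N k)) (b (N k)) (c (N k)) (e (N k)) (j k)) ∉ A i} = ∅ := by
        rw [Set.eq_empty_iff_forall_notMem]
        intro j hj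
        obtain ⟨i, hi⟩ := hA (0 + ∑ k, T k (pts (a (N k)) (b (N k)) (c (N k)) (e (N k)) (j k)))
        exact hj i hi
      rw [hemp, Set.ncard_empty] at h49
      omega
    obtain ⟨i, hi⟩ := hgood
    refine ⟨i, ?_, hi⟩
    intro d hd
    obtain ⟨v, hv, x, hx, hx'⟩ := hi (DistribSMul.toAddMonoidHom _ d)
    refine ⟨_, hx', x, hx, ?_⟩
    obtain ⟨j, -, rfl⟩ := Finset.mem_image.1 hv
    obtain ⟨h1, h2, h3, h4, h5, h6, h7⟩ := h (N i) (hN i)
    rw [add_sub_cancel_left, DistribSMul.toAddMonoidHom_apply, map_smul_eq_mul,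
      Real.norm_of_nonneg hd.le]
    have : (N i) (dirs (a (N i)) (b (N i)) (c (N i)) (e (N i)) j) = 1 := by
      fin_cases j <;> simpa [dirs]
    rw [this, mul_one]

end Pool.Agent.Results.MP_642bd7_co.ThreeNorms
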